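import Mathlib
import Pool.Agent.N312.MBasisLinf
import Pool.Agent.N318.LinfLUR

set_option autoImplicit false

/-!
# MP_ea77cd_an: an extended M-basis does not give an equivalent LUR norm

The space is `ℓ^∞ × ℓ₁(Γ)` for a suitable uncountable `Γ`. It has an extended M-basis, while no
norm equivalent to the usual one is locally uniformly convex on the copy of `ℓ^∞`.
-/

open Filter Topology

namespace Pool.Agent.Results.MP_ea77cd_an.MBasisNotLUR

/-- The pairs `(x i, f i)` form an extended M-basis of `E`. -/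
def IsExtendedMBasis (𝕜 : Type) [RCLike 𝕜] {E : Type} [NormedAddCommGroup E] [NormedSpace 𝕜 E]
    {I : Type} (x : I → E) (f : I → (E →L[𝕜] 𝕜)) : Prop :=
  (∀ i, f i (x i) = 1) ∧ (∀ i j, i ≠ j → f i (x j) = 0) ∧
    (Submodule.span 𝕜 (Set.range x)).topologicalClosure = ⊤ ∧
    ∀ y : E, (∀ i, f i y = 0) → y = 0

/-- The seminorm `p` is a norm equivalent to the given norm of `E`. -/
def IsEquivalentNorm (𝕜 : Type) [RCLike 𝕜] {E : Type} [NormedAddCommGroup E] [NormedSpace 𝕜 E]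
    (p : Seminorm 𝕜 E) : Prop :=
  ∃ c C : ℝ, 0 < c ∧ 0 < C ∧ ∀ x, c * ‖x‖ ≤ p x ∧ p x ≤ C * ‖x‖

/-- The seminorm `p` is locally uniformly convex. -/
def IsLUR (𝕜 : Type) [RCLike 𝕜] {E : Type} [NormedAddCommGroup E] [NormedSpace 𝕜 E]
    (p : Seminorm 𝕜 E) : Prop :=
  ∀ (x : E) (xs : ℕ → E), p x = 1 → (∀ n, p (xs n) = 1) →
    Tendsto (fun n => p (xs n + x)) atTop (𝓝 2) →
    Tendsto (fun n => p (xs n - x)) atTop (𝓝 0)

/-- Over `𝕜 = ℝ` and over `𝕜 = ℂ` there is a Banach space `E` which has an extended M-basis but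
no equivalent locally uniformly convex norm. -/
theorem result (𝕜 : Type) [RCLike 𝕜] :
    ∃ (E : Type) (_ : NormedAddCommGroup E) (_ : NormedSpace 𝕜 E) (_ : CompleteSpace E),
      (∃ (I : Type) (x : I → E) (f : I → (E →L[𝕜] 𝕜)), IsExtendedMBasis 𝕜 x f) ∧
      ∀ p : Seminorm 𝕜 E, IsEquivalentNorm 𝕜 p → ¬ IsLUR 𝕜 p := by
  obtain ⟨I, x, f, h1, h2, h3, h4⟩ := Pool.Agent.N312.MBL.linf 𝕜
  refine ⟨lp (fun _ : ℕ => 𝕜) ⊤ ×
      lp (fun _ : Pool.Agent.N312.MBL.Gam (lp (fun _ : ℕ => 𝕜) ⊤) => 𝕜) 1,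
    inferInstance, inferInstance, inferInstance, ⟨I, x, f, h1, h2, h3, h4⟩, ?_⟩
  rintro p ⟨c, C, hc, -, hp⟩ hlur
  refine Pool.Agent.N318.LinfLUR.not_lur 𝕜 (LinearMap.inl 𝕜 _ _) (fun z => ?_) p c C hc
    (fun x => (hp x).1) (fun x => (hp x).2) hlur
  simp [Prod.norm_def]

end Pool.Agent.Results.MP_ea77cd_an.MBasisNotLUR
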